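import Pool.Agent.U631.TD.E3

/-!
# Closed three-dimensional Landsberg manifolds are Berwald manifolds

Let `M` be a smooth compact manifold of dimension three and let `F : TM → ℝ` be a smooth Finsler metric
(smooth for all `y ≠ 0`, not necessarily reversible) with vanishing Landsberg curvature. Then `F` is a
Berwald metric.

Idea of the proof (all files in `Pool/Agent/U631/TD`). `R` is the curvature of the nonlinear connection,
`C` the Cartan tensor, `D C` its vertical derivative, `B` the Berwald curvature.
(1) (`C1`-`C7`) In dimension three `R` vanishes near each point `x` with `B(x,·) ≠ 0` (see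
`DimThreeCurvature`).
(2) (`D2`, `D3`) For every Landsberg metric the covariant derivative of `D C` along a geodesic is a
multiple of `B`, and `B` is parallel along geodesics in the set where `R = 0`.
(3) (`D4`, `E2`) Let `B(x,y) ≠ 0`. By (1) and (2) `B` is parallel along the geodesic `c` with `c'(0) = y`
as long as it does not vanish, so it never vanishes; and `D C` grows linearly along `c`.
(4) (`D6`, `D7`, `D8`, `E1`, `E2`) On a compact manifold geodesics exist for all times (a uniform
existence time in finitely many charts) and `D C` is bounded. This is a contradiction. Invariants of
four parallel vectors along `c` are followed from chart to chart.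
(5) (`E3`) Charts, tangent maps and transition maps of the manifold `M`.
-/

set_option autoImplicit false

namespace Pool.Agent.Results.MP_9f67e3_gt.DimThreeClosed

open Pool.Agent.R774.BW Pool.Agent.U631.TD
open scoped Manifold ContDiff

/-- Every smooth Finsler metric with vanishing Landsberg curvature on a smooth compact manifold of
dimension three is a Berwald metric. -/
theorem result (M : Type) [TopologicalSpace M] [ChartedSpace (Fin 3 → ℝ) M]
    [IsManifold 𝓘(ℝ, Fin 3 → ℝ) ∞ M] [CompactSpace M]
    (F : TangentBundle 𝓘(ℝ, Fin 3 → ℝ) M → ℝ) (hF : IsFinslerMetric F) (hL : LandsbergVanishes F) :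
    BerwaldVanishes F :=
  mainManifold hF hL

end Pool.Agent.Results.MP_9f67e3_gt.DimThreeClosed
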