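import Pool.Agent.U631.TD.C7

/-!
# Three-dimensional unicorns have vanishing curvature

Let `F` be a smooth Finsler metric (defined for all `y ≠ 0`, not necessarily reversible) on an open
set `U` of `ℝ^3` whose Landsberg curvature vanishes. Let `N^i_k = ∂G^i/∂y^k` be the nonlinear
connection of `F` and `R^i_jk = δ_k N^i_j - δ_j N^i_k` its curvature (the flag curvatures of `F` at `x`
are all zero if `R^i_jk(x,·) = 0`).

Each point `x` of `U` at which the Berwald curvature does not vanish has a neighbourhood on which `R`
vanishes. In particular the Berwald curvature vanishes at each point `x` with `R(x,·) ≠ 0`, and a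
three-dimensional unicorn has vanishing curvature wherever it is not a Berwald metric.

Idea of the proof (`q = F²/2`, `γ` the Hessian of `q` in `y`, `C` the Cartan tensor; all in the files
`Pool/Agent/U631/TD`).
(a) (`C1`, `C2`) The horizontal fields `δ_i` preserve the metric `γ` of the fibres (this is `L = 0`);
commutators of such fields have this property, so `R_ij = [δ_i, δ_j]` and `[δ_l, R_ij]` are
infinitesimal isometries of each fibre.
(b) (`F1`-`F11`) If `F(x,·)` is not Euclidean then all infinitesimal isometries of its Hessian metric
are proportional: two independent ones would imply that the indicatrix has constant curvature, and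
then `C = 0`.
(c) (`C5`) So `R_01, R_12, R_20` are constant multiples of one field `K`, with coefficients
`ω_2, ω_0, ω_1`, and the cyclic identity gives `∂K/∂y (ω) = 0`. As `K` is homogeneous of degree one,
its second derivatives are homogeneous of degree `-1` and constant in the direction `ω`, so they
vanish: `K(y) = Λ y` is linear and `Λ ω = 0`.
(d) (`C6`) `[δ_l, R_ij]` is a multiple of `K`, so it is linear too. This gives an equation for the
derivative of `B` in the direction `Λ y`, whose antisymmetric part is `B(u,Λv,w) = B(u,Λw,v)`.
With `B(y,·,·) = 0` it follows that `y, Λy, Λ²y` are in the kernel of `B_y`; as `Λ` is skew symmetric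
for the inner product `γ_ω`, these vectors are a basis for almost all `y`, and `B = 0`.
(e) (`C4`, `C6`) If `C = 0` on all fibres near `x` then `B = 0` near `x` (uniqueness of the
Levi-Civita connection); the remaining points are limits of points of the first kind.
-/

set_option autoImplicit false

open scoped Topology

namespace Pool.Agent.Results.MP_9f67e3_gt.DimThreeCurvature

open Pool.Agent.R774.BW Pool.Agent.U631.TD

/-- Let `F` be a smooth Finsler metric with vanishing Landsberg curvature on an open set `U` of `ℝ³`.
If the Berwald curvature of `F` does not vanish at the point `x` then the curvature of the nonlinear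
connection vanishes on a neighbourhood of `x`. -/
theorem result (U : Set (Fin 3 → ℝ)) (F : (Fin 3 → ℝ) → (Fin 3 → ℝ) → ℝ)
    (G : (Fin 3 → ℝ) → (Fin 3 → ℝ) → (Fin 3 → ℝ))
    (hF : IsFinsler U F) (hG : IsSpray U F G)
    (hL : ∀ x ∈ U, ∀ y : Fin 3 → ℝ, y ≠ 0 → ∀ j k l : Fin 3, landsberg F G x y j k l = 0) :
    ∀ x ∈ U, (∃ y : Fin 3 → ℝ, y ≠ 0 ∧ ∃ i j k l, berwald G x y i j k l ≠ 0) →
      ∀ᶠ x' in 𝓝 x, ∀ y : Fin 3 → ℝ, y ≠ 0 → ∀ i j k : Fin 3, curv G x' y i j k = 0 :=
  fun _ hx ⟨_, hy1, _, _, _, _, hB⟩ => main3C' hF hG hL hx hy1 hB

end Pool.Agent.Results.MP_9f67e3_gt.DimThreeCurvature
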