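import Pool.Agent.U631.TD.T3

/-!
# There is no three-dimensional generalized Berwald unicorn

Let `F` be a smooth Finsler metric (defined for all `y ≠ 0`, not necessarily reversible) on an open
set `U` of `ℝ^3` and suppose that `F` is a generalized Berwald metric: the parallel transports of some
linear connection `Γ`, of arbitrary torsion, preserve `F`. If the Landsberg curvature of `F` vanishes
at a point `x` of `U`, then the Berwald curvature of `F` vanishes at `x`.

The starting file `FewIsometries` of this problem proves this in all dimensions `n` (with the same
connections) for metrics whose fibres `F(x,·)` have fewer than `n` independent infinitesimal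
isometries of the Hessian metric. In dimension three this assumption is removed here.

Idea of the proof. `E = F(x,·)²/2`, `g = D²E`, `C = D³E` on one fibre `ℝ³ ∖ 0`.
(1) (`TD/F1`, `TD/F2`) Gauss equation: the curvature of the indicatrix `(S², g)` is
`K_S = 1 + g(y,y) ρ / 4` with a quadratic expression `ρ` in the Cartan tensor `C`.
(2) (`TD/F6`-`TD/F9`) An infinitesimal isometry of `g` is determined by its value and its derivative at
one point (it solves a linear equation of the second order, and a Gronwall estimate).
(3) (`TD/F10`, `TD/F11`) If there are two independent infinitesimal isometries then `K_S` is constant.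
(4) (`TD/F3`-`TD/F5`, `TD/F11`) If `K_S` is constant then `C = 0`. At a maximum of `det g` the trace
of `C` vanishes, so `ρ ≥ 0` there and `K_S ≥ 1`. If `K_S > 1` then `ρ > 0` everywhere, the trace free
part of `C` has no zeros on the indicatrix, and the corresponding connection form, whose differential
is the curvature form, is defined on all of `S²`, in contradiction to the divergence theorem (no
cubic form of this kind exists on a sphere of positive curvature). If `K_S = 1` then `g` is flat and
the starting files `H506R3/Lau` (Laugwitz's theorem in dimension three) apply.
(5) (`TD/T2`, `TD/T3`) On the fibres with `C ≠ 0` all infinitesimal isometries are therefore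
proportional and `FewIsometries` applies; on the fibres with `C = 0` they are linear, and the Berwald
curvature is a second derivative of infinitesimal isometries.
-/

set_option autoImplicit false

namespace Pool.Agent.Results.MP_9f67e3_gt.DimThreeGeneralizedBerwald

open Pool.Agent.R774.BW

/-- Let `F` be a smooth Finsler metric on an open set `U` of `ℝ³` which is compatible with some
linear connection `Γ` of arbitrary torsion. At each point `x` of `U` at which the Landsberg curvature
vanishes the Berwald curvature vanishes. -/
theorem result (U : Set (Fin 3 → ℝ)) (F : (Fin 3 → ℝ) → (Fin 3 → ℝ) → ℝ)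
    (G : (Fin 3 → ℝ) → (Fin 3 → ℝ) → (Fin 3 → ℝ))
    (Γ : (Fin 3 → ℝ) → Fin 3 → Fin 3 → Fin 3 → ℝ)
    (hF : IsFinsler U F) (hG : IsSpray U F G) (hΓ : Compatible U F Γ)
    (x : Fin 3 → ℝ) (hx : x ∈ U)
    (hL : ∀ y : Fin 3 → ℝ, y ≠ 0 → ∀ j k l : Fin 3, landsberg F G x y j k l = 0) :
    ∀ y : Fin 3 → ℝ, y ≠ 0 → ∀ i j k l : Fin 3, berwald G x y i j k l = 0 :=
  fun _ hy => Pool.Agent.U631.TD.main3A hF hG hΓ hx hL hy

end Pool.Agent.Results.MP_9f67e3_gt.DimThreeGeneralizedBerwald
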