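import Pool.Agent.U631.LW.Main

/-!
# Weakly Landsberg metrics with a compatible semi-symmetric linear connection are Berwald metrics

Let `F` be a smooth Finsler metric (defined for all `y ≠ 0`, not necessarily reversible) on an open
set `U` of `ℝ^n`, and suppose that `F` is a generalized Berwald metric: the parallel transports of a
linear connection `Γ` preserve `F`. Suppose that the torsion of `Γ` is `T(u,v) = η(u) v - η(v) u` for a
1-form `η` (`Γ` and `η` may depend on `x` in an arbitrary way). If the mean Landsberg curvature `J` of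
`F` vanishes, in particular if the Landsberg curvature `L` vanishes, then `F` is a Berwald metric, and
`F(x,·)` is Euclidean at all points `x` with `η_x ≠ 0` (for `n ≥ 2`).

So there is no smooth unicorn in this class, which contains all metrics `e^σ F₀` with a Berwald metric
`F₀` (take `η = dσ`). The assumption that `F` is smooth for all `y ≠ 0` is necessary: the singular
unicorns of Asanov (smooth outside of the directions of a line) are of this kind.

Idea of the proof. On one fibre let `Q = F²`, `A` the Hessian matrix of `Q`, `θ = d log det A` and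
`N = |θ|²` with respect to `A⁻¹`.
(1) (starting files `Pool/Agent/R774/BW`) The difference `Z` of the spray of `F` and a quadratic map is
`Q A⁻¹ η`, and `J = 0` implies that the derivative of the function `Q N` in the direction of `Z` is zero.
(2) (`Pool/Agent/U631/LW/Leg.lean`) In the coordinates `p = ∇Q(y)` of the dual space the lines in the
direction `η` are the integral curves of `A⁻¹ η`. A function which is homogeneous of degree zero and
constant along these lines is constant, as all these lines have the same point at infinity.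
(3) (`Pool/Agent/U631/LW/Jac.lean`) `θ` vanishes at a maximum of `det A`, so `Q N = 0` and `θ = 0`.
(4) (`Pool/Agent/U631/LW/Dei.lean`, Deicke's theorem) If `θ = 0` then `A⁻¹` is divergence free, so for
`f = ∂_k ∂_k Q` the function `tr (A⁻¹ D²f) = tr ((A⁻¹ ∂_k A)²) ≥ 0` is the divergence of the field
`A⁻¹ ∇f`, which is tangent to the level sets of `Q`; its integral over `{r ≤ Q ≤ s}` is zero and
`∂_k A = 0`.
-/

set_option autoImplicit false

namespace Pool.Agent.Results.MP_9f67e3_gt.SemiSymmetricConnections

open Pool.Agent.R774.BW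

/-- Let `F` be a smooth Finsler metric on an open set `U` of `ℝ^n` which is compatible with a linear
connection `Γ` whose torsion is semi-symmetric with the 1-form `η`. If the mean Landsberg curvature of
`F` vanishes then the Berwald curvature of `F` vanishes, and at every point `x` with `η_x ≠ 0` the norm
`F(x,·)` is Euclidean (if `n ≥ 2`). -/
theorem result {n : ℕ} (U : Set (Fin n → ℝ)) (F : (Fin n → ℝ) → (Fin n → ℝ) → ℝ)
    (G : (Fin n → ℝ) → (Fin n → ℝ) → (Fin n → ℝ))
    (Γ : (Fin n → ℝ) → Fin n → Fin n → Fin n → ℝ) (η : (Fin n → ℝ) → Fin n → ℝ)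
    (hF : IsFinsler U F) (hG : IsSpray U F G) (hΓ : Compatible U F Γ) (hη : SemiSymmetric U Γ η)
    (hJ : ∀ x ∈ U, ∀ y : Fin n → ℝ, y ≠ 0 → ∀ l, meanLandsberg F G x y l = 0) :
    (∀ x ∈ U, ∀ y : Fin n → ℝ, y ≠ 0 → ∀ i j k l : Fin n, berwald G x y i j k l = 0) ∧
    (2 ≤ n → ∀ x ∈ U, η x ≠ 0 → ∃ g : Matrix (Fin n) (Fin n) ℝ, ∀ y : Fin n → ℝ, y ≠ 0 →
      F x y ^ 2 = ∑ i, ∑ j, g i j * y i * y j) :=
  ⟨fun _ hx _ hy => (main Pool.Agent.U631.LW.leg Pool.Agent.U631.LW.jac Pool.Agent.U631.LW.dei
      hF hG hΓ hη hJ hx hy).1,
    fun hn x hx hne => Pool.Agent.U631.LW.quad_of_cartan (Q := fun y => F x y ^ 2) hn (hF.mn hx)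
      fun _ hy => (main Pool.Agent.U631.LW.leg Pool.Agent.U631.LW.jac Pool.Agent.U631.LW.dei
        hF hG hΓ hη hJ hx hy).2 hne⟩

end Pool.Agent.Results.MP_9f67e3_gt.SemiSymmetricConnections
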